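import Mathlib
import Pool.Agent.Y722.HS.LSum

/-!
# The fibres of a fibration over affine space: definitions

`𝒳 → U` is a smooth projective family of varieties over the open part `U : P ≠ 0` of the affine space with the
coordinates `y_i`, `i ∈ ι`, with a model over the integers; the fibre at `c ∈ ℤ^ι` is `X_c`.
-/

set_option autoImplicit false

namespace Pool.Agent.L0h50.FI

open Pool.Agent.Y722.HS (red)

section
variable {N : ℕ} {ι : Type}

/-- The number of the points, over the field with `p ^ e` elements, `e ≥ 1`, of the fibre at the point `y`, with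
coordinates in the field with `p` elements, of the subscheme of `ℙ^N × 𝔸^ι` with the equations `g = 0`, `g ∈ E`, where the
`g` are homogeneous in the coordinates of `ℙ^N`, and their coefficients are polynomials in the coordinates of `𝔸^ι`. -/
noncomputable def fibrePoints (E : Set (MvPolynomial (Fin (N + 1)) (MvPolynomial ι ℤ))) (p e : ℕ) [Fact p.Prime]
    (y : ι → ZMod p) : ℂ :=
  (Nat.card {x : Fin (N + 1) → GaloisField p e // x ≠ 0 ∧ ∀ g ∈ E,
    MvPolynomial.eval₂ (MvPolynomial.eval₂Hom (Int.castRingHom (GaloisField p e))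
      (fun i => algebraMap (ZMod p) (GaloisField p e) (y i))) x g = 0} : ℂ) / ((p : ℂ) ^ e - 1)

/-- The value of `P` at a point over `ℤ/p`. -/
noncomputable def at' (P : MvPolynomial ι ℤ) (p : ℕ) (y : ι → ZMod p) : ZMod p :=
  MvPolynomial.eval₂ (Int.castRingHom (ZMod p)) y P

/-- `β p y k j`, `j < b k`, are the eigenvalues of the geometric Frobenius on the `k`-th cohomology group of the
fibre at `y`, for the primes `p ≥ p₀` and the points `y` over `ℤ/p` with `P(y) ≠ 0`, where the fibres are smooth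
projective varieties of dimension `D`: they are of absolute value `p ^ (k / 2)`, and the alternating sum of the traces of the
`e`-th power of Frobenius is the number of points over the field with `p ^ e` elements (Deligne, Grothendieck). -/
structure IsFibration (E : Set (MvPolynomial (Fin (N + 1)) (MvPolynomial ι ℤ))) (P : MvPolynomial ι ℤ) (D p₀ : ℕ)
    (b : ℕ → ℕ) (β : ∀ p : ℕ, (ι → ZMod p) → ∀ k : ℕ, Fin (b k) → ℂ) : Prop where
  weight : ∀ p : ℕ, p.Prime → p₀ ≤ p → ∀ y, at' P p y ≠ 0 → ∀ k j, ‖β p y k j‖ = (p : ℝ) ^ ((k : ℝ) / 2)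
  trace : ∀ (p : ℕ) [Fact p.Prime], p₀ ≤ p → ∀ y, at' P p y ≠ 0 → ∀ e : ℕ, 1 ≤ e →
    fibrePoints E p e y = ∑ k ∈ Finset.range (2 * D + 1), (-1) ^ k * ∑ j, β p y k j ^ e

/-- `α p j`, `j < B`, are the eigenvalues of the Frobenius at `p` of `H^n(X_c) ⊗ Θ`, zeros added if necessary,
where `Θ` has the eigenvalues `θ p i` at `p`: the absolute values are at most `p ^ (n / 2)` for all primes `p`, and the
power sums are the products of the traces if `p ≥ p₀` does not divide `P(c)`, so that the fibre at the reduction of `c`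
modulo `p` is smooth. -/
structure IsFibre (n p₀ : ℕ) {b : ℕ → ℕ} (β : ∀ p : ℕ, (ι → ZMod p) → ∀ k : ℕ, Fin (b k) → ℂ)
    (P : MvPolynomial ι ℤ) {ρ : ℕ} (θ : ℕ → Fin ρ → ℂ) (c : ι → ℤ) {B : ℕ} (α : ℕ → Fin B → ℂ) : Prop where
  bound : ∀ p : ℕ, p.Prime → ∀ j, ‖α p j‖ ≤ (p : ℝ) ^ ((n : ℝ) / 2)
  power : ∀ p : ℕ, p.Prime → p₀ ≤ p → ¬ (p : ℤ) ∣ MvPolynomial.eval c P → ∀ e : ℕ, 1 ≤ e →
    ∑ j, α p j ^ e = (∑ j, β p (red p c) n j ^ e) * ∑ i, θ p i ^ e

open Classical in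
/-- The average `𝔅_p = p^{-m} ∑ b_p(X_y)` of the traces of the Frobenius on the `n`-th cohomology group of the fibres
over the points `y` over `ℤ/p` with `P(y) ≠ 0`, for the primes `p ≥ p₀`; `m` is the dimension of the base. -/
noncomputable def fibreMean [Fintype ι] (n p₀ : ℕ) {b : ℕ → ℕ}
    (β : ∀ p : ℕ, (ι → ZMod p) → ∀ k : ℕ, Fin (b k) → ℂ) (P : MvPolynomial ι ℤ) (p : ℕ) : ℂ :=
  if p.Prime ∧ p₀ ≤ p then
    (∑ᶠ y : {y : ι → ZMod p // at' P p y ≠ 0}, ∑ j, β p y.1 n j) / (p : ℂ) ^ Fintype.card ι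
  else 0

/-- The series `∑_p 𝔅_p tr(Θ)(p) p^{-s}`. -/
noncomputable def meanSeries [Fintype ι] (n p₀ : ℕ) {b : ℕ → ℕ}
    (β : ∀ p : ℕ, (ι → ZMod p) → ∀ k : ℕ, Fin (b k) → ℂ) (P : MvPolynomial ι ℤ) {ρ : ℕ} (θ : ℕ → Fin ρ → ℂ)
    (s : ℂ) : ℂ :=
  ∑' p : Nat.Primes, fibreMean n p₀ β P p * (∑ i, θ p i) * ((p : ℕ) : ℂ) ^ (-s)

end

open Topology in
/-- `∑_p a_p log(p) p^{-s}` has a meromorphic continuation to a neighbourhood of `s = n/2 + 1` with at most a
simple pole and the residue `r` there. -/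
def Residue (n : ℕ) (a : ℕ → ℂ) (r : ℝ) : Prop :=
  ∃ g : ℂ → ℂ, AnalyticAt ℂ g ((n : ℂ) / 2 + 1) ∧
    ∀ᶠ s in 𝓝 ((n : ℂ) / 2 + 1), (n : ℝ) / 2 + 1 < s.re →
      ∑' p : Nat.Primes, a p * (Real.log p : ℂ) * ((p : ℕ) : ℂ) ^ (-s) = r / (s - ((n : ℂ) / 2 + 1)) + g s

end Pool.Agent.L0h50.FI
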