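import Mathlib
import Pool.Agent.L0h50.FI.Core
import Pool.Agent.L0h50.NL.Main

/-!
# The L-functions of the fibres and the mean series
-/

set_option autoImplicit false

namespace Pool.Agent.L0h50.FI

open Finset Pool.Agent.Y722.HS Pool.Agent.Y722.LS Pool.Agent.N534.TL Pool.Agent.L0h50.NL

/-- The tail of a sum over the primes. -/
theorem tail_gen (f : ℕ → ℂ) (K : ℝ) (hK : 0 ≤ K) (ε : ℝ) (hε : 0 < ε) (hε1 : ε ≤ 1)
    (hf : ∀ p : ℕ, p.Prime → ‖f p‖ ≤ K * (p : ℝ) ^ (-1 - ε)) (y : ℕ) (hy : 1 ≤ y) :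
    Summable (fun p : Nat.Primes => f p) ∧
      ‖∑' p : Nat.Primes, f p - ∑ p ∈ PR y, f p‖ ≤ K * (16 / (ε * Real.log (y + 1))) := by
  have hg : Summable fun p : Nat.Primes => K * ((p : ℕ) : ℝ) ^ (-1 - ε) :=
    (summable_primes hε).mul_left _
  have h1 : Summable fun p : Nat.Primes => f p :=
    Summable.of_norm_bounded hg fun p => hf p p.2
  refine ⟨h1, ?_⟩
  set S : Finset Nat.Primes := (PR y).subtype Nat.Prime with hS
  have hsum : ∑ p ∈ S, f (p : ℕ) = ∑ p ∈ PR y, f p :=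
    Finset.sum_subtype_of_mem f fun p hp => (mem_PR.mp hp).2
  have hSmem : ∀ q : Nat.Primes, q ∈ S ↔ (q : ℕ) ≤ y := by
    intro q
    exact (Finset.mem_subtype (p := Nat.Prime) (s := PR y) (a := q)).trans
      (mem_PR.trans ⟨fun h => h.1, fun h => ⟨h, q.2⟩⟩)
  have h2 := h1.sum_add_tsum_subtype_compl S
  have h3 : ‖∑' p : {p : Nat.Primes // p ∉ S}, f (p : Nat.Primes)‖ ≤
      K * (16 / (ε * Real.log (y + 1))) := by
    have h4 : Summable fun p : {p : Nat.Primes // p ∉ S} =>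
        K * (((p : Nat.Primes) : ℕ) : ℝ) ^ (-1 - ε) :=
      hg.comp_injective Subtype.val_injective
    refine (tsum_of_norm_bounded h4.hasSum fun p => hf p p.1.2).trans ?_
    refine h4.tsum_le_of_sum_le fun t => ?_
    rw [← Finset.mul_sum]
    refine mul_le_mul_of_nonneg_left ?_ hK
    have h5 := tail_le (y + 1) (by omega) ε hε hε1
      (t.image (fun p : {p : Nat.Primes // p ∉ S} => ((p : Nat.Primes) : ℕ))) (by
        intro q hq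
        obtain ⟨p, _, rfl⟩ := Finset.mem_image.mp hq
        refine ⟨p.1.2, ?_⟩
        have h6 : ¬ ((p.1 : Nat.Primes) : ℕ) ≤ y := fun h => p.2 ((hSmem p.1).mpr h)
        omega)
    have h6 : ∑ q ∈ t.image (fun p : {p : Nat.Primes // p ∉ S} => ((p : Nat.Primes) : ℕ)),
        (q : ℝ) ^ (-1 - ε) = ∑ p ∈ t, (((p : Nat.Primes) : ℕ) : ℝ) ^ (-1 - ε) :=
      Finset.sum_image (fun a _ b _ h => Subtype.ext (Subtype.ext h))
    rw [h6] at h5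
    push_cast at h5
    exact h5
  rw [← h2, hsum, add_sub_cancel_left]
  exact h3

section
variable {N : ℕ} {ι : Type} [Fintype ι] [DecidableEq ι] {b : ℕ → ℕ}
  {β : ∀ p : ℕ, (ι → ZMod p) → ∀ k : ℕ, Fin (b k) → ℂ} {P : MvPolynomial ι ℤ}
  {E : Set (MvPolynomial (Fin (N + 1)) (MvPolynomial ι ℤ))} {D n p₀ : ℕ}

theorem at_iff (p : ℕ) (c : ι → ℤ) : at' P p (red p c) = 0 ↔ (p : ℤ) ∣ MvPolynomial.eval c P := by
  have h2 : at' P p (red p c) = (Int.castRingHom (ZMod p)) (MvPolynomial.eval c P) := by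
    have := MvPolynomial.eval₂_comp_left (Int.castRingHom (ZMod p)) (RingHom.id ℤ) c P
    rw [MvPolynomial.eval₂_id] at this
    rw [this]
    rfl
  rw [h2]
  exact ZMod.intCast_zmod_eq_zero_iff_dvd _ p

/-- One prime. -/
theorem term (h : IsFibration E P D p₀ b β) {ρ : ℕ} {θ : ℕ → Fin ρ → ℂ} (hθ : ∀ p i, ‖θ p i‖ ≤ 1)
    {B : ℕ} {c : ι → ℤ} {α : ℕ → Fin B → ℂ} (hα : IsFibre n p₀ β P θ c α) (p : ℕ) [Fact p.Prime]
    (ε τ : ℝ) (hε : 0 ≤ ε) :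
    ‖((∑ j, twist α τ p j) * (p : ℂ) ^ (-ss (n + 1) ε) -
        fibreMean n p₀ β P p * (∑ i, θ p i) * (p : ℂ) ^ (-(ss (n + 1) ε + τ * Complex.I))) -
      ((ρ + 1) * (tt 0 θ p * (p : ℂ) ^ (-((ε : ℂ) + τ * Complex.I)) * (N1 n p₀ β P p (red p c) : ℂ)) +
      (ρ + 1) * (tt 0 θ p * (p : ℂ) ^ (-((ε : ℂ) + τ * Complex.I)) * (N2 n p₀ β P p (red p c) : ℂ)) *
        Complex.I)‖ ≤
      (ρ + 1) * (bb (N1 n p₀ β P) (BB P p₀) (B + b n) p (red p c) +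
        bb (N2 n p₀ β P) (BB P p₀) (B + b n) p (red p c)) := by
  classical
  have hp := (Fact.out : p.Prime)
  have hp0 : (0 : ℝ) < p := by exact_mod_cast hp.pos
  have hp1 : (1 : ℝ) ≤ p := by exact_mod_cast hp.one_lt.le
  have hpc : (p : ℂ) ≠ 0 := by exact_mod_cast hp.ne_zero
  have hpε : (p : ℝ) ^ (-ε) ≤ 1 := Real.rpow_le_one_of_one_le_of_nonpos hp1 (by linarith)
  have hpε0 : 0 < (p : ℝ) ^ (-ε) := by positivity
  set s : ℂ := (p : ℂ) ^ (-((τ : ℂ) * Complex.I)) with hs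
  have hs1 : ‖s‖ = 1 := norm_pi p hp τ
  have hsum : (∑ j, twist α τ p j) = (∑ j, α p j) * s := by
    rw [Finset.sum_mul]
    rfl
  have hu : (p : ℂ) ^ (-((ε : ℂ) + τ * Complex.I)) = (((p : ℝ) ^ (-ε) : ℝ) : ℂ) * s := by
    rw [Complex.ofReal_cpow hp0.le, neg_add, Complex.cpow_add _ _ hpc]
    push_cast
    ring
  have hρ : ((ρ : ℂ) + 1) ≠ 0 := by
    have : ((ρ : ℂ) + 1) = ((ρ + 1 : ℕ) : ℂ) := by push_cast; rfl
    rw [this]
    exact_mod_cast Nat.succ_ne_zero ρ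
  set θ1 : ℂ := ∑ i, θ p i with hθ1
  have hθn : ‖θ1‖ ≤ ρ := norm_theta hθ p
  have htt : ((ρ : ℂ) + 1) * tt 0 θ p = θ1 := by
    unfold tt
    rw [← hθ1]
    field_simp
  set w : ℝ := (p : ℝ) ^ (-ε) / (p : ℝ) ^ ((n : ℝ) / 2 + 1) with hw
  have hw0 : 0 < w := by positivity
  have hw1 : w ≤ 1 / (p : ℝ) ^ ((n : ℝ) / 2 + 1) := by
    rw [hw]
    gcongr
  have hss : (p : ℂ) ^ (-(ss (n + 1) ε + τ * Complex.I)) = s * (w : ℂ) := by
    rw [neg_add, Complex.cpow_add _ _ hpc, cpow_ss n p hp, ← hw, ← hs]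
    ring
  rw [hsum, cpow_ss n p hp, ← hw, hu, hss]
  set M := fibreMean n p₀ β P p with hM
  set X1 := N1 n p₀ β P p (red p c) with hX1
  set X2 := N2 n p₀ β P p (red p c) with hX2
  have hcomb : (ρ + 1) * (tt 0 θ p * ((((p : ℝ) ^ (-ε) : ℝ) : ℂ) * s) * (X1 : ℂ)) +
      (ρ + 1) * (tt 0 θ p * ((((p : ℝ) ^ (-ε) : ℝ) : ℂ) * s) * (X2 : ℂ)) * Complex.I =
      θ1 * s * ((((p : ℝ) ^ (-ε) : ℝ) : ℂ) * ((X1 : ℂ) + (X2 : ℂ) * Complex.I)) := by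
    rw [← htt]
    ring
  rw [hcomb]
  by_cases hb : p < p₀ ∨ MvPolynomial.eval₂ (Int.castRingHom (ZMod p)) (red p c) P = 0
  · have h1 : bb (N1 n p₀ β P) (BB P p₀) (B + b n) p (red p c) = |X1| + (B + b n) / p := by
      unfold bb BB; rw [if_pos hb, one_mul]
    have h1' : bb (N2 n p₀ β P) (BB P p₀) (B + b n) p (red p c) = |X2| + (B + b n) / p := by
      unfold bb BB; rw [if_pos hb, one_mul]
    have h2 : ‖(∑ j, α p j) * s * (w : ℂ)‖ ≤ B / p := by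
      rw [norm_mul, norm_mul, hs1, mul_one, Complex.norm_real, Real.norm_of_nonneg hw0.le]
      have h3 : ‖∑ j, α p j‖ ≤ B * (p : ℝ) ^ ((n : ℝ) / 2) := by
        refine (norm_sum_le _ _).trans ?_
        refine (Finset.sum_le_sum fun j _ => hα.bound p hp j).trans ?_
        rw [Finset.sum_const, nsmul_eq_mul, Finset.card_univ, Fintype.card_fin]
      calc _ ≤ B * (p : ℝ) ^ ((n : ℝ) / 2) * (1 / (p : ℝ) ^ ((n : ℝ) / 2 + 1)) := by gcongr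
        _ = _ := by
          rw [Real.rpow_add hp0, Real.rpow_one]
          field_simp
    have h3 : ‖M * θ1 * (s * (w : ℂ))‖ ≤ ρ * (b n / p) := by
      rw [norm_mul, norm_mul, norm_mul, hs1, one_mul, Complex.norm_real, Real.norm_of_nonneg hw0.le]
      calc _ ≤ (b n * (p : ℝ) ^ ((n : ℝ) / 2)) * ρ * (1 / (p : ℝ) ^ ((n : ℝ) / 2 + 1)) := by
            gcongr
            exact norm_mean h p hp
        _ = _ := by
          rw [Real.rpow_add hp0, Real.rpow_one]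
          field_simp
    have h4 : ‖θ1 * s * ((((p : ℝ) ^ (-ε) : ℝ) : ℂ) * ((X1 : ℂ) + (X2 : ℂ) * Complex.I))‖ ≤
        ρ * (|X1| + |X2|) := by
      rw [norm_mul, norm_mul, norm_mul, hs1, mul_one, Complex.norm_real, Real.norm_of_nonneg hpε0.le]
      have h5 : ‖(X1 : ℂ) + (X2 : ℂ) * Complex.I‖ ≤ |X1| + |X2| := by
        refine (norm_add_le _ _).trans ?_
        rw [norm_mul, Complex.norm_I, mul_one, Complex.norm_real, Complex.norm_real, Real.norm_eq_abs,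
          Real.norm_eq_abs]
      calc _ ≤ (ρ : ℝ) * (1 * (|X1| + |X2|)) := by gcongr
        _ = _ := by ring
    rw [h1, h1']
    have h5 := norm_sub_le ((∑ j, α p j) * s * (w : ℂ) - M * θ1 * (s * (w : ℂ)))
      (θ1 * s * ((((p : ℝ) ^ (-ε) : ℝ) : ℂ) * ((X1 : ℂ) + (X2 : ℂ) * Complex.I)))
    have h6 := norm_sub_le ((∑ j, α p j) * s * (w : ℂ)) (M * θ1 * (s * (w : ℂ)))
    have h8 : 0 ≤ |X1| := abs_nonneg _
    have h8' : 0 ≤ |X2| := abs_nonneg _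
    have h9 : ((B : ℝ) + b n) / p = B / p + b n / p := add_div _ _ _
    have h10 : 0 ≤ (B : ℝ) / p := by positivity
    have h10' : 0 ≤ (b n : ℝ) / p := by positivity
    have hρ0 : (0 : ℝ) ≤ ρ := by positivity
    have h11 : 0 ≤ ρ * ((B : ℝ) / p) := by positivity
    have h11' : 0 ≤ ρ * ((b n : ℝ) / p) := by positivity
    rw [h9]
    nlinarith
  · have h1 : bb (N1 n p₀ β P) (BB P p₀) (B + b n) p (red p c) = 0 := by
      unfold bb BB; rw [if_neg hb, zero_mul]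
    have h1' : bb (N2 n p₀ β P) (BB P p₀) (B + b n) p (red p c) = 0 := by
      unfold bb BB; rw [if_neg hb, zero_mul]
    have hg : gt n p₀ β P p (red p c) = ∑ j, β p (red p c) n j := by
      unfold gt
      exact if_neg hb
    push Not at hb
    obtain ⟨hb1, hb2⟩ := hb
    have hb3 : ¬ (p : ℤ) ∣ MvPolynomial.eval c P := fun hd => hb2 ((at_iff p c).mpr hd)
    have e1 := hα.power p hp hb1 hb3 1 le_rfl
    simp only [pow_one] at e1
    rw [← hθ1, ← hg] at e1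
    rw [h1, h1', add_zero, mul_zero]
    apply le_of_eq
    rw [norm_eq_zero, sub_eq_zero, e1]
    have e2 : (((p : ℝ) ^ (-ε) : ℝ) : ℂ) * ((X1 : ℂ) + (X2 : ℂ) * Complex.I) =
        (gt n p₀ β P p (red p c) - M) * (w : ℂ) := by
      have e3 : gt n p₀ β P p (red p c) - M = ((gt n p₀ β P p (red p c) - M).re : ℂ) +
          ((gt n p₀ β P p (red p c) - M).im : ℂ) * Complex.I := (Complex.re_add_im _).symm
      rw [e3, hX1, hX2, hw]
      unfold N1 N2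
      rw [← hM]
      push_cast
      have hq : (((p : ℝ) ^ ((n : ℝ) / 2 + 1) : ℝ) : ℂ) ≠ 0 := by
        exact_mod_cast (by positivity : (0 : ℝ) < (p : ℝ) ^ ((n : ℝ) / 2 + 1)).ne'
      field_simp
    rw [e2]
    ring

/-- The mean series and its partial sums. -/
theorem mean_tail (h : IsFibration E P D p₀ b β) {ρ : ℕ} {θ : ℕ → Fin ρ → ℂ} (hθ : ∀ p i, ‖θ p i‖ ≤ 1)
    (ε τ : ℝ) (hε : 0 < ε) (hε1 : ε ≤ 1) (y : ℕ) (hy : 1 ≤ y) :
    ‖meanSeries n p₀ β P θ (ss (n + 1) ε + τ * Complex.I) -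
      ∑ p ∈ PR y, fibreMean n p₀ β P p * (∑ i, θ p i) * (p : ℂ) ^ (-(ss (n + 1) ε + τ * Complex.I))‖ ≤
      ρ * b n * (16 / (ε * Real.log (y + 1))) := by
  refine (tail_gen (fun p => fibreMean n p₀ β P p * (∑ i, θ p i) *
    (p : ℂ) ^ (-(ss (n + 1) ε + τ * Complex.I))) (ρ * b n) (by positivity) ε hε hε1 ?_ y hy).2
  intro p hp
  have hp0 : (0 : ℝ) < p := by exact_mod_cast hp.pos
  have hpc : (p : ℂ) ≠ 0 := by exact_mod_cast hp.ne_zero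
  rw [neg_add, Complex.cpow_add _ _ hpc, cpow_ss n p hp, norm_mul, norm_mul, norm_mul, norm_pi p hp τ, mul_one,
    Complex.norm_real, Real.norm_of_nonneg (by positivity)]
  calc _ ≤ (b n * (p : ℝ) ^ ((n : ℝ) / 2)) * ρ * ((p : ℝ) ^ (-ε) / (p : ℝ) ^ ((n : ℝ) / 2 + 1)) := by
        gcongr
        · exact norm_mean h p hp
        · exact norm_theta hθ p
    _ = ρ * b n * (p : ℝ) ^ (-1 - ε) := by
        have e : (p : ℝ) ^ (-1 - ε) = (p : ℝ) ^ (-ε) / p := by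
          rw [show (-1 - ε : ℝ) = -ε + -1 by ring, Real.rpow_add hp0, Real.rpow_neg_one, div_eq_mul_inv]
        rw [e, Real.rpow_add hp0, Real.rpow_one]
        field_simp

/-- The L-function of one fibre. -/
theorem one (h : IsFibration E P D p₀ b β) {ρ : ℕ} {θ : ℕ → Fin ρ → ℂ} (hθ : ∀ p i, ‖θ p i‖ ≤ 1)
    {B : ℕ} {c : ι → ℤ} {α : ℕ → Fin B → ℂ} (hα : IsFibre n p₀ β P θ c α) (y : ℕ) (hy : 1 ≤ y)
    (ε τ : ℝ) (hε : 0 < ε) (hε1 : ε ≤ 1) (hyε : 1 ≤ 4 * (ε * Real.log (y + 1))) :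
    |Real.log ‖LP α (ss (n + 1) ε + τ * Complex.I)‖ -
        (meanSeries n p₀ β P θ (ss (n + 1) ε + τ * Complex.I)).re| ≤
      (ρ + 1) * ‖ZT (N1 n p₀ β P) (tt 0 θ) y c (ε + τ * Complex.I)‖ +
      (ρ + 1) * ‖ZT (N2 n p₀ β P) (tt 0 θ) y c (ε + τ * Complex.I)‖ +
        (ρ + 1) * ∑ p ∈ PR y, bb (N1 n p₀ β P) (BB P p₀) (B + b n) p (red p c) +
        (ρ + 1) * ∑ p ∈ PR y, bb (N2 n p₀ β P) (BB P p₀) (B + b n) p (red p c) +
        (B * (SS + 128) + ρ * b n * 64) := by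
  have hbound : ∀ p : ℕ, p.Prime → ∀ j,
      ‖twist α τ p j‖ ≤ (p : ℝ) ^ ((((n + 1 : ℕ) : ℝ) - 1) / 2) := by
    intro p hp j
    have e : (((n + 1 : ℕ) : ℝ) - 1) / 2 = (n : ℝ) / 2 := by push_cast; ring
    rw [e, twist_norm α τ p hp]
    exact hα.bound p hp j
  have h1 := log_LP (n := n + 1) hε hε1 hbound y hy
  rw [LP_twist] at h1
  have h2 := mean_tail h hθ (n := n) ε τ hε hε1 y hy
  have h16 : 16 / (ε * Real.log (y + 1)) ≤ 64 := by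
    rw [div_le_iff₀ (by linarith)]
    linarith
  have h3 : 2 * (B : ℝ) * (16 / (ε * Real.log (y + 1))) ≤ 128 * B := by
    calc _ ≤ 2 * (B : ℝ) * 64 := by gcongr
      _ = _ := by ring
  have h4 : (ρ : ℝ) * b n * (16 / (ε * Real.log (y + 1))) ≤ ρ * b n * 64 := by gcongr
  set Mn : ℕ → ℂ := fun p => fibreMean n p₀ β P p * (∑ i, θ p i) *
    (p : ℂ) ^ (-(ss (n + 1) ε + τ * Complex.I)) with hMn
  have hr : (((ρ : ℂ) + 1)) = (((ρ : ℝ) + 1 : ℝ) : ℂ) := by push_cast; rfl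
  have hrn : ‖((ρ : ℂ) + 1)‖ = (ρ : ℝ) + 1 := by
    rw [hr, Complex.norm_real, Real.norm_of_nonneg (by positivity)]
  set Z1 := ZT (N1 n p₀ β P) (tt 0 θ) y c (ε + τ * Complex.I) with hZ1
  set Z2 := ZT (N2 n p₀ β P) (tt 0 θ) y c (ε + τ * Complex.I) with hZ2
  have h5 : ‖∑ p ∈ PR y, ((∑ j, twist α τ p j) * (p : ℂ) ^ (-ss (n + 1) ε) - Mn p) -
      ((ρ + 1) * Z1 + (ρ + 1) * Z2 * Complex.I)‖ ≤
      (ρ + 1) * (∑ p ∈ PR y, bb (N1 n p₀ β P) (BB P p₀) (B + b n) p (red p c) +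
        ∑ p ∈ PR y, bb (N2 n p₀ β P) (BB P p₀) (B + b n) p (red p c)) := by
    rw [hZ1, hZ2]
    unfold ZT
    rw [Finset.mul_sum, Finset.mul_sum, Finset.sum_mul, ← Finset.sum_add_distrib, ← Finset.sum_sub_distrib,
      ← Finset.sum_add_distrib, Finset.mul_sum]
    refine (norm_sum_le _ _).trans (Finset.sum_le_sum fun p hp => ?_)
    have := Fact.mk (mem_PR.mp hp).2
    exact term h hθ hα p ε τ hε.le
  have h6 : |∑ p ∈ PR y, ((∑ j, twist α τ p j) * (p : ℂ) ^ (-ss (n + 1) ε)).re - (∑ p ∈ PR y, Mn p).re| ≤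
      ((ρ + 1) * ‖Z1‖ + (ρ + 1) * ‖Z2‖) +
      (ρ + 1) * (∑ p ∈ PR y, bb (N1 n p₀ β P) (BB P p₀) (B + b n) p (red p c) +
        ∑ p ∈ PR y, bb (N2 n p₀ β P) (BB P p₀) (B + b n) p (red p c)) := by
    have e1 : ∑ p ∈ PR y, ((∑ j, twist α τ p j) * (p : ℂ) ^ (-ss (n + 1) ε)).re - (∑ p ∈ PR y, Mn p).re =
      (∑ p ∈ PR y, ((∑ j, twist α τ p j) * (p : ℂ) ^ (-ss (n + 1) ε) - Mn p)).re := by
      rw [Complex.re_sum, Complex.re_sum, ← Finset.sum_sub_distrib]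
      exact Finset.sum_congr rfl fun p _ => (Complex.sub_re _ _).symm
    rw [e1]
    refine (Complex.abs_re_le_norm _).trans ?_
    have e2 := norm_add_le (∑ p ∈ PR y, ((∑ j, twist α τ p j) * (p : ℂ) ^ (-ss (n + 1) ε) - Mn p) -
      ((ρ + 1) * Z1 + (ρ + 1) * Z2 * Complex.I)) ((ρ + 1) * Z1 + (ρ + 1) * Z2 * Complex.I)
    rw [sub_add_cancel] at e2
    have e3 : ‖((ρ : ℂ) + 1) * Z1 + ((ρ : ℂ) + 1) * Z2 * Complex.I‖ ≤
        (ρ + 1) * ‖Z1‖ + (ρ + 1) * ‖Z2‖ := by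
      refine (norm_add_le _ _).trans ?_
      rw [norm_mul, norm_mul, norm_mul, Complex.norm_I, hrn, mul_one]
    linarith
  have h7 : |(∑ p ∈ PR y, Mn p).re -
      (meanSeries n p₀ β P θ (ss (n + 1) ε + τ * Complex.I)).re| ≤ ρ * b n * 64 := by
    rw [abs_sub_comm, ← Complex.sub_re]
    exact (Complex.abs_re_le_norm _).trans (h2.trans h4)
  have i1 := abs_sub_le (Real.log ‖LP α (ss (n + 1) ε + τ * Complex.I)‖)
    (∑ p ∈ PR y, ((∑ j, twist α τ p j) * (p : ℂ) ^ (-ss (n + 1) ε)).re)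
    (meanSeries n p₀ β P θ (ss (n + 1) ε + τ * Complex.I)).re
  have i2 := abs_sub_le (∑ p ∈ PR y, ((∑ j, twist α τ p j) * (p : ℂ) ^ (-ss (n + 1) ε)).re)
    (∑ p ∈ PR y, Mn p).re (meanSeries n p₀ β P θ (ss (n + 1) ε + τ * Complex.I)).re
  linarith

/-- **The majorant.** -/
theorem majorant (h : IsFibration E P D p₀ b β) (hP : P ≠ 0) (ρ B : ℕ) :
    ∃ C : ℝ, 0 < C ∧ ∀ (θ : ℕ → Fin ρ → ℂ), (∀ p i, ‖θ p i‖ ≤ 1) →
      ∀ H : ℕ, 2 ≤ H → ∀ T : ℝ, 0 ≤ T → ∃ M : (ι → ℤ) → ℝ,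
      (∀ c, 0 ≤ M c) ∧ EB H M ≤ C * (1 + T) ∧
      ∀ (c : ι → ℤ) (α : ℕ → Fin B → ℂ) (ε τ : ℝ), IsFibre n p₀ β P θ c α →
        1 / Real.log H ≤ ε → ε ≤ 1 → |τ| ≤ T →
        (Real.log ‖LP α (n / 2 + 1 + ε + τ * Complex.I)‖ -
          (meanSeries n p₀ β P θ (n / 2 + 1 + ε + τ * Complex.I)).re) ^ 2 ≤ M c := by
  obtain ⟨c0, hc0⟩ : ∃ c0 : ι → ℤ, MvPolynomial.eval c0 P ≠ 0 := by
    by_contra hcon
    push Not at hcon
    exact hP (MvPolynomial.funext fun c => by rw [hcon c, map_zero])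
  have hf1 := fam1 h (n := n) c0 hc0
  have hf2 := fam2 h (n := n) c0 hc0
  set A : ℝ := AA b n p₀ P c0 with hA
  have hA1 := hf1.A0
  set bt : ℝ := (B : ℝ) + b n with hbt
  have hbt0 : 0 ≤ bt := by positivity
  set K : ℝ := B * (SS + 128) + ρ * b n * 64 with hK
  have hSS := SS_nonneg
  have hK0 : 0 ≤ K := by positivity
  have hK1 : 0 ≤ K1 ι A := by
    unfold K1
    positivity
  have hK4 : 0 ≤ K4 ι A bt :=
    le_trans (by unfold EB; positivity) (hf1.EB_bb_sq hbt0 0 0 (by norm_num))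
  refine ⟨2 * (5 * (ρ + 1) ^ 2 * (11 * (4 * Real.pi * K1 ι A))) + 2 * (5 * (ρ + 1) ^ 2 * K4 ι A bt) +
    5 * K ^ 2 + 1, by positivity, ?_⟩
  intro θ hθ H hH T hT
  obtain ⟨y, hy1, hy4, hyl⟩ := exists_y H hH
  have hlogH : 0 < Real.log H := Real.log_pos (by exact_mod_cast (by omega : 1 < H))
  set k : ℕ := ⌈4 * T + 1⌉₊ with hk
  have hk1 : 4 * T + 1 ≤ k := Nat.le_ceil _
  have hk2 : (k : ℝ) < 4 * T + 2 := by
    have := Nat.ceil_lt_add_one (a := 4 * T + 1) (by positivity)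
    linarith
  refine ⟨fun c => 5 * (ρ + 1) ^ 2 * G3 (N1 n p₀ β P) (tt 0 θ) y k c +
    5 * (ρ + 1) ^ 2 * G3 (N2 n p₀ β P) (tt 0 θ) y k c +
    5 * (ρ + 1) ^ 2 * (∑ p ∈ PR y, bb (N1 n p₀ β P) (BB P p₀) bt p (red p c)) ^ 2 +
    5 * (ρ + 1) ^ 2 * (∑ p ∈ PR y, bb (N2 n p₀ β P) (BB P p₀) bt p (red p c)) ^ 2 + 5 * K ^ 2, ?_, ?_, ?_⟩
  · intro c
    have g1 := G3_nonneg (N := N1 n p₀ β P) (tt 0 θ) y k c
    have g2 := G3_nonneg (N := N2 n p₀ β P) (tt 0 θ) y k c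
    positivity
  · rw [EB_add, EB_add, EB_add, EB_add, EB_const, Pool.Agent.Y722.HS.EB_mul, Pool.Agent.Y722.HS.EB_mul,
      Pool.Agent.Y722.HS.EB_mul, Pool.Agent.Y722.HS.EB_mul]
    have e1 := EB_G3 hf1 (norm_tt 0 hθ) H y k hy4
    have e1' := EB_G3 hf2 (norm_tt 0 hθ) H y k hy4
    have e2 := hf1.EB_bb_sq hbt0 H y hy4
    have e2' := hf2.EB_bb_sq hbt0 H y hy4
    have hpi := Real.pi_pos
    have e3 : (2 * (k : ℝ) + 1) * (4 * Real.pi * K1 ι A) ≤ (11 * (1 + T)) * (4 * Real.pi * K1 ι A) := by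
      apply mul_le_mul_of_nonneg_right _ (by positivity)
      linarith
    have e4 : K4 ι A bt ≤ K4 ι A bt * (1 + T) := le_mul_of_one_le_right (by positivity) (by linarith)
    have e5 : 5 * K ^ 2 ≤ 5 * K ^ 2 * (1 + T) := le_mul_of_one_le_right (by positivity) (by linarith)
    have hr0 : (0 : ℝ) ≤ 5 * ((ρ : ℝ) + 1) ^ 2 := by positivity
    have e6 := mul_le_mul_of_nonneg_left (e1.trans e3) hr0
    have e6' := mul_le_mul_of_nonneg_left (e1'.trans e3) hr0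
    have e7 := mul_le_mul_of_nonneg_left (e2.trans e4) hr0
    have e7' := mul_le_mul_of_nonneg_left (e2'.trans e4) hr0
    have e8 : (0 : ℝ) ≤ 1 + T := by linarith
    calc _ ≤ (5 * ((ρ : ℝ) + 1) ^ 2) * ((11 * (1 + T)) * (4 * Real.pi * K1 ι A)) +
          (5 * ((ρ : ℝ) + 1) ^ 2) * ((11 * (1 + T)) * (4 * Real.pi * K1 ι A)) +
          (5 * ((ρ : ℝ) + 1) ^ 2) * (K4 ι A bt * (1 + T)) +
          (5 * ((ρ : ℝ) + 1) ^ 2) * (K4 ι A bt * (1 + T)) + 5 * K ^ 2 * (1 + T) :=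
          add_le_add (add_le_add (add_le_add (add_le_add e6 e6') e7) e7') e5
      _ ≤ _ := by nlinarith
  · intro c α ε τ hα hε0 hε1 hτ
    have hεp : 0 < ε := lt_of_lt_of_le (by positivity) hε0
    have hyε : 1 ≤ 4 * (ε * Real.log (y + 1)) := by
      have h4 : 1 ≤ ε * Real.log H := by
        rw [div_le_iff₀ hlogH] at hε0
        exact hε0
      calc (1 : ℝ) ≤ ε * Real.log H := h4
        _ ≤ ε * (4 * Real.log (y + 1)) := by gcongr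
        _ = _ := by ring
    have hs1 : ss (n + 1) ε = (n : ℂ) / 2 + 1 + ε := by
      unfold ss
      push_cast
      ring
    have h1 := one h hθ hα y hy1 ε τ hεp hε1 hyε
    rw [← hbt, ← hK, hs1] at h1
    have h2 := ZT_le (N := N1 n p₀ β P) (tt 0 θ) y k c ε τ hεp.le hε1 (by linarith)
    have h2' := ZT_le (N := N2 n p₀ β P) (tt 0 θ) y k c ε τ hεp.le hε1 (by linarith)
    set X := Real.log ‖LP α (n / 2 + 1 + ε + τ * Complex.I)‖ -
      (meanSeries n p₀ β P θ (n / 2 + 1 + ε + τ * Complex.I)).re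
    set z := ‖ZT (N1 n p₀ β P) (tt 0 θ) y c (ε + τ * Complex.I)‖
    set z' := ‖ZT (N2 n p₀ β P) (tt 0 θ) y c (ε + τ * Complex.I)‖
    set w := ∑ p ∈ PR y, bb (N1 n p₀ β P) (BB P p₀) bt p (red p c)
    set w' := ∑ p ∈ PR y, bb (N2 n p₀ β P) (BB P p₀) bt p (red p c)
    have h4 : X ^ 2 ≤ ((ρ + 1) * z + (ρ + 1) * z' + (ρ + 1) * w + (ρ + 1) * w' + K) ^ 2 := by
      rw [← sq_abs X]
      exact pow_le_pow_left₀ (abs_nonneg X) h1 2
    have h5 : ((ρ + 1) * z + (ρ + 1) * z' + (ρ + 1) * w + (ρ + 1) * w' + K) ^ 2 ≤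
        5 * ((ρ + 1) * z) ^ 2 + 5 * ((ρ + 1) * z') ^ 2 + 5 * ((ρ + 1) * w) ^ 2 +
          5 * ((ρ + 1) * w') ^ 2 + 5 * K ^ 2 := by
      have g : ∀ a b c d e : ℝ, (a + b + c + d + e) ^ 2 ≤
          5 * a ^ 2 + 5 * b ^ 2 + 5 * c ^ 2 + 5 * d ^ 2 + 5 * e ^ 2 := by
        intro a b c d e
        have e0 : 5 * a ^ 2 + 5 * b ^ 2 + 5 * c ^ 2 + 5 * d ^ 2 + 5 * e ^ 2 - (a + b + c + d + e) ^ 2 =
            (a - b) ^ 2 + (a - c) ^ 2 + (b - c) ^ 2 + (a - d) ^ 2 + (b - d) ^ 2 + (c - d) ^ 2 + (a - e) ^ 2 +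
              (b - e) ^ 2 + (c - e) ^ 2 + (d - e) ^ 2 := by ring
        have e1 : 0 ≤ (a - b) ^ 2 + (a - c) ^ 2 + (b - c) ^ 2 + (a - d) ^ 2 + (b - d) ^ 2 + (c - d) ^ 2 +
            (a - e) ^ 2 + (b - e) ^ 2 + (c - e) ^ 2 + (d - e) ^ 2 := by positivity
        linarith
      exact g _ _ _ _ _
    have hr0 : (0 : ℝ) ≤ 5 * ((ρ : ℝ) + 1) ^ 2 := by positivity
    have h6 := mul_le_mul_of_nonneg_left h2 hr0
    have h6' := mul_le_mul_of_nonneg_left h2' hr0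
    have e1 : ∀ z : ℝ, 5 * (((ρ : ℝ) + 1) * z) ^ 2 = 5 * ((ρ : ℝ) + 1) ^ 2 * z ^ 2 := fun z => by ring
    rw [e1, e1, e1, e1] at h5
    exact (h4.trans h5).trans (by linarith)

end

end Pool.Agent.L0h50.FI
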