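import Mathlib
import Pool.Agent.L0h50.FI.Main

/-!
# The mean series near the edge of convergence, and the residue of its derivative
-/

set_option autoImplicit false

namespace Pool.Agent.L0h50.FI

open Finset Pool.Agent.Y722.HS Filter Topology MeasureTheory

section
variable {n : ℕ} {a : ℕ → ℂ} {K : ℝ}

theorem norm_cpow_edge (n p : ℕ) (hp : p.Prime) (t : ℝ) :
    ‖(p : ℂ) ^ (-((n : ℂ) / 2 + 1 + t))‖ = (p : ℝ) ^ (-1 - t) / (p : ℝ) ^ ((n : ℝ) / 2) := by
  have hp0 : (0 : ℝ) < p := by exact_mod_cast hp.pos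
  have e : (-((n : ℂ) / 2 + 1 + t)) = ((-1 - t - (n : ℝ) / 2 : ℝ) : ℂ) := by push_cast; ring
  have e2 : ((p : ℝ) : ℂ) = (p : ℂ) := by push_cast; rfl
  rw [← e2, Complex.norm_cpow_eq_rpow_re_of_pos hp0, e, Complex.ofReal_re, Real.rpow_sub hp0]

theorem norm_term (ha : ∀ p : ℕ, p.Prime → ‖a p‖ ≤ K * (p : ℝ) ^ ((n : ℝ) / 2)) (p : ℕ) (hp : p.Prime) (t : ℝ) :
    ‖a p * (p : ℂ) ^ (-((n : ℂ) / 2 + 1 + t))‖ ≤ K * (p : ℝ) ^ (-1 - t) := by
  have hp0 : (0 : ℝ) < p := by exact_mod_cast hp.pos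
  rw [norm_mul, norm_cpow_edge n p hp]
  calc _ ≤ (K * (p : ℝ) ^ ((n : ℝ) / 2)) * ((p : ℝ) ^ (-1 - t) / (p : ℝ) ^ ((n : ℝ) / 2)) := by
        gcongr
        exact ha p hp
    _ = _ := by field_simp

theorem K_nonneg (ha : ∀ p : ℕ, p.Prime → ‖a p‖ ≤ K * (p : ℝ) ^ ((n : ℝ) / 2)) : 0 ≤ K := by
  have h1 := (norm_nonneg _).trans (ha 2 Nat.prime_two)
  have h2 : (0 : ℝ) < ((2 : ℕ) : ℝ) ^ ((n : ℝ) / 2) := by positivity
  exact nonneg_of_mul_nonneg_left h1 h2

theorem sum_summable (ha : ∀ p : ℕ, p.Prime → ‖a p‖ ≤ K * (p : ℝ) ^ ((n : ℝ) / 2)) (t : ℝ) (ht : 0 < t) :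
    Summable fun p : Nat.Primes => a p * ((p : ℕ) : ℂ) ^ (-((n : ℂ) / 2 + 1 + t)) :=
  Summable.of_norm_bounded ((summable_primes ht).mul_left K) fun p => norm_term ha p p.2 t

theorem log_term (ha : ∀ p : ℕ, p.Prime → ‖a p‖ ≤ K * (p : ℝ) ^ ((n : ℝ) / 2)) (p : ℕ) (hp : p.Prime)
    (ε t : ℝ) (hε : 0 < ε) (ht : ε ≤ t) :
    ‖a p * (Real.log p : ℂ) * (p : ℂ) ^ (-((n : ℂ) / 2 + 1 + t))‖ ≤ K * (2 / ε) * (p : ℝ) ^ (-1 - ε / 2) := by
  have hp0 : (0 : ℝ) < p := by exact_mod_cast hp.pos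
  have hp1 : (1 : ℝ) ≤ p := by exact_mod_cast hp.one_lt.le
  have hK := K_nonneg ha
  have h1 := norm_term ha p hp t
  have h2 : Real.log p ≤ (p : ℝ) ^ (ε / 2) / (ε / 2) := Real.log_le_rpow_div hp0.le (by positivity)
  have h3 : 0 ≤ Real.log p := Real.log_nonneg hp1
  have e : a p * (Real.log p : ℂ) * (p : ℂ) ^ (-((n : ℂ) / 2 + 1 + t)) =
      (Real.log p : ℂ) * (a p * (p : ℂ) ^ (-((n : ℂ) / 2 + 1 + t))) := by ring
  rw [e, norm_mul, Complex.norm_real, Real.norm_of_nonneg h3]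
  calc _ ≤ ((p : ℝ) ^ (ε / 2) / (ε / 2)) * (K * (p : ℝ) ^ (-1 - t)) := by gcongr
    _ ≤ ((p : ℝ) ^ (ε / 2) / (ε / 2)) * (K * (p : ℝ) ^ (-1 - ε)) := by gcongr
    _ = K * (2 / ε) * ((p : ℝ) ^ (ε / 2) * (p : ℝ) ^ (-1 - ε)) := by field_simp
    _ = _ := by
        rw [← Real.rpow_add hp0]
        congr 2
        ring

theorem int_term (p : ℕ) (hp : p.Prime) (ε δ : ℝ) :
    ∫ t in ε..δ, a p * (Real.log p : ℂ) * (p : ℂ) ^ (-((n : ℂ) / 2 + 1 + (t : ℂ))) =
      a p * (p : ℂ) ^ (-((n : ℂ) / 2 + 1 + (ε : ℂ))) - a p * (p : ℂ) ^ (-((n : ℂ) / 2 + 1 + (δ : ℂ))) := by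
  have hpc : (p : ℂ) ≠ 0 := by exact_mod_cast hp.ne_zero
  have hlog : Complex.log (p : ℂ) = (Real.log p : ℂ) := by
    have : ((p : ℝ) : ℂ) = (p : ℂ) := by push_cast; rfl
    rw [← this, Complex.ofReal_log (by positivity)]
  have h1 : ∀ t : ℝ, HasDerivAt (fun t : ℝ => -(a p * (p : ℂ) ^ (-((n : ℂ) / 2 + 1 + (t : ℂ)))))
      (a p * (Real.log p : ℂ) * (p : ℂ) ^ (-((n : ℂ) / 2 + 1 + (t : ℂ)))) t := by
    intro t
    have h2 : HasDerivAt (fun t : ℂ => -((n : ℂ) / 2 + 1 + t)) (-1) (t : ℂ) :=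
      ((hasDerivAt_id (t : ℂ)).const_add _).neg
    have h4 := (h2.const_cpow (c := (p : ℂ)) (Or.inl hpc)).const_mul (a p)
    have h5 := h4.neg.comp_ofReal
    refine h5.congr_deriv ?_
    rw [hlog]
    ring
  have hc : Continuous fun t : ℝ => a p * (Real.log p : ℂ) * (p : ℂ) ^ (-((n : ℂ) / 2 + 1 + (t : ℂ))) := by
    refine continuous_const.mul ?_
    exact (continuous_const.add Complex.continuous_ofReal).neg.const_cpow (Or.inl hpc)
  rw [intervalIntegral.integral_eq_sub_of_hasDerivAt (fun t _ => h1 t) (hc.intervalIntegrable _ _)]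
  ring

theorem int_series (ha : ∀ p : ℕ, p.Prime → ‖a p‖ ≤ K * (p : ℝ) ^ ((n : ℝ) / 2)) (ε δ : ℝ) (hε : 0 < ε)
    (hδ : ε ≤ δ) :
    ∫ t in ε..δ, ∑' p : Nat.Primes, a p * (Real.log p : ℂ) * ((p : ℕ) : ℂ) ^ (-((n : ℂ) / 2 + 1 + (t : ℂ))) =
      ∑' p : Nat.Primes, a p * ((p : ℕ) : ℂ) ^ (-((n : ℂ) / 2 + 1 + (ε : ℂ))) -
        ∑' p : Nat.Primes, a p * ((p : ℕ) : ℂ) ^ (-((n : ℂ) / 2 + 1 + (δ : ℂ))) := by
  have hsum : Summable fun p : Nat.Primes => K * (2 / ε) * ((p : ℕ) : ℝ) ^ (-1 - ε / 2) :=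
    (summable_primes (by positivity)).mul_left _
  have h1 := intervalIntegral.hasSum_integral_of_dominated_convergence (μ := volume) (a := ε) (b := δ)
    (F := fun (p : Nat.Primes) (t : ℝ) => a p * (Real.log p : ℂ) * ((p : ℕ) : ℂ) ^ (-((n : ℂ) / 2 + 1 + (t : ℂ))))
    (f := fun t => ∑' p : Nat.Primes, a p * (Real.log p : ℂ) * ((p : ℕ) : ℂ) ^ (-((n : ℂ) / 2 + 1 + (t : ℂ))))
    (fun p _ => K * (2 / ε) * ((p : ℕ) : ℝ) ^ (-1 - ε / 2)) ?_ ?_ ?_ ?_ ?_
  · rw [← h1.tsum_eq, ← (sum_summable ha ε hε).tsum_sub (sum_summable ha δ (by linarith))]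
    exact tsum_congr fun p => int_term p p.2 ε δ
  · intro p
    have hpc : ((p : ℕ) : ℂ) ≠ 0 := by exact_mod_cast p.2.ne_zero
    apply Continuous.aestronglyMeasurable
    refine continuous_const.mul ?_
    exact (continuous_const.add Complex.continuous_ofReal).neg.const_cpow (Or.inl hpc)
  · intro p
    refine Eventually.of_forall fun t ht => ?_
    rw [Set.uIoc_of_le hδ] at ht
    exact log_term ha p p.2 ε t hε ht.1.le
  · exact Eventually.of_forall fun t _ => hsum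
  · exact intervalIntegrable_const
  · refine Eventually.of_forall fun t ht => ?_
    rw [Set.uIoc_of_le hδ] at ht
    exact (Summable.of_norm_bounded hsum fun p => log_term ha p p.2 ε t hε ht.1.le).hasSum

theorem residue_near (ha : ∀ p : ℕ, p.Prime → ‖a p‖ ≤ K * (p : ℝ) ^ ((n : ℝ) / 2)) {r : ℝ}
    (h : Residue n a r) : ∃ C : ℝ, 0 ≤ C ∧ ∀ ε : ℝ, 0 < ε → ε ≤ 1 →
      |(∑' p : Nat.Primes, a p * ((p : ℕ) : ℂ) ^ (-((n : ℂ) / 2 + 1 + (ε : ℂ)))).re -
        r * Real.log (1 / ε)| ≤ C := by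
  obtain ⟨g, hg, hS⟩ := h
  have hK := K_nonneg ha
  set z : ℂ := (n : ℂ) / 2 + 1 with hz
  have hzre : z.re = (n : ℝ) / 2 + 1 := by
    have : z = (((n : ℝ) / 2 + 1 : ℝ) : ℂ) := by rw [hz]; push_cast; ring
    rw [this, Complex.ofReal_re]
  -- a neighbourhood
  have h1 : ∀ᶠ s in 𝓝 z, AnalyticAt ℂ g s := hg.eventually_analyticAt
  have h2 : ∀ᶠ s in 𝓝 z, ‖g s‖ < ‖g z‖ + 1 := by
    have := hg.continuousAt.norm
    exact this.eventually (gt_mem_nhds (by linarith))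
  obtain ⟨e₀, he₀, hball⟩ := Metric.eventually_nhds_iff.mp ((h1.and h2).and hS)
  set δ : ℝ := min (e₀ / 2) 1 with hδ
  have hδ0 : 0 < δ := by positivity
  have hδe : δ < e₀ := lt_of_le_of_lt (min_le_left _ _) (by linarith)
  have hδ1 : δ ≤ 1 := min_le_right _ _
  have hdist : ∀ t : ℝ, 0 < t → t ≤ δ → dist (z + (t : ℂ)) z < e₀ := by
    intro t ht htδ
    rw [dist_eq_norm, add_sub_cancel_left, Complex.norm_real, Real.norm_of_nonneg ht.le]
    linarith
  set A : ℝ → ℂ := fun t => ∑' p : Nat.Primes, a p * ((p : ℕ) : ℂ) ^ (-(z + (t : ℂ))) with hA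
  set T0 : ℝ := ∑' p : Nat.Primes, K * ((p : ℕ) : ℝ) ^ (-1 - δ) with hT0
  have hT00 : 0 ≤ T0 := tsum_nonneg fun p => by positivity
  have hAδ : ∀ t : ℝ, δ ≤ t → ‖A t‖ ≤ T0 := by
    intro t ht
    refine tsum_of_norm_bounded ((summable_primes hδ0).mul_left K).hasSum fun p => ?_
    refine (norm_term ha p p.2 t).trans ?_
    have hp1 : (1 : ℝ) ≤ ((p : ℕ) : ℝ) := by exact_mod_cast p.2.one_lt.le
    gcongr
  refine ⟨T0 + (‖g z‖ + 1) + |r| * |Real.log (1 / δ)|, by positivity, fun ε hε hε1 => ?_⟩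
  change |(A ε).re - r * Real.log (1 / ε)| ≤ _
  by_cases hlt : ε ≤ δ
  · have h3 := int_series ha ε δ hε hlt
    have h4 : ∫ t in ε..δ, ∑' p : Nat.Primes, a p * (Real.log p : ℂ) * ((p : ℕ) : ℂ) ^ (-(z + (t : ℂ))) =
        ∫ t in ε..δ, ((r : ℂ) / t + g (z + t)) := by
      apply intervalIntegral.integral_congr_ae
      refine Eventually.of_forall fun t ht => ?_
      rw [Set.uIoc_of_le hlt] at ht
      have ht0 : 0 < t := lt_of_lt_of_le hε ht.1.le
      have h5 := (hball (hdist t ht0 ht.2)).2 (by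
        rw [Complex.add_re, hzre, Complex.ofReal_re]
        linarith)
      rw [h5]
      congr 2
      ring
    have hi1 : IntervalIntegrable (fun t : ℝ => (r : ℂ) / t) volume ε δ := by
      apply ContinuousOn.intervalIntegrable
      intro t ht
      rw [Set.uIcc_of_le hlt] at ht
      have ht0 : (t : ℂ) ≠ 0 := by
        rw [Ne, Complex.ofReal_eq_zero]
        exact (lt_of_lt_of_le hε ht.1).ne'
      exact (continuousAt_const.div Complex.continuous_ofReal.continuousAt ht0).continuousWithinAt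
    have hi2 : IntervalIntegrable (fun t : ℝ => g (z + t)) volume ε δ := by
      apply ContinuousOn.intervalIntegrable
      intro t ht
      rw [Set.uIcc_of_le hlt] at ht
      have ht0 : 0 < t := lt_of_lt_of_le hε ht.1
      have h5 := (hball (hdist t ht0 ht.2)).1.1.continuousAt
      have h6 : ContinuousAt (fun t : ℝ => z + (t : ℂ)) t :=
        (continuous_const.add Complex.continuous_ofReal).continuousAt
      exact (ContinuousAt.comp (f := fun t : ℝ => z + (t : ℂ)) (g := g) h5 h6).continuousWithinAt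
    have h5 : ∫ t in ε..δ, ((r : ℂ) / t) = ((r * Real.log (δ / ε) : ℝ) : ℂ) := by
      have e1 : ∀ t : ℝ, (r : ℂ) / t = ((r * (1 / t) : ℝ) : ℂ) := by intro t; push_cast; ring
      rw [intervalIntegral.integral_congr fun t _ => e1 t, intervalIntegral.integral_ofReal,
        intervalIntegral.integral_const_mul, integral_one_div_of_pos hε hδ0]
    rw [h4, intervalIntegral.integral_add hi1 hi2, h5] at h3
    have h6 : ‖∫ t in ε..δ, g (z + t)‖ ≤ (‖g z‖ + 1) * |δ - ε| := by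
      apply intervalIntegral.norm_integral_le_of_norm_le_const
      intro t ht
      rw [Set.uIoc_of_le hlt] at ht
      exact (hball (hdist t (lt_of_lt_of_le hε ht.1.le) ht.2)).1.2.le
    have h7 : |δ - ε| ≤ 1 := by
      rw [abs_of_nonneg (by linarith)]
      linarith
    have h8 : ‖∫ t in ε..δ, g (z + t)‖ ≤ ‖g z‖ + 1 := by
      refine h6.trans ?_
      exact mul_le_of_le_one_right (by positivity) h7
    have h9 : A ε = ((r * Real.log (δ / ε) : ℝ) : ℂ) + (∫ t in ε..δ, g (z + t)) + A δ := by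
      rw [h3]
      simp only [hA]
      ring
    have h10 : (A ε).re = r * Real.log (δ / ε) + (∫ t in ε..δ, g (z + t)).re + (A δ).re := by
      rw [h9, Complex.add_re, Complex.add_re, Complex.ofReal_re]
    have h11 : Real.log (δ / ε) = Real.log (1 / ε) - Real.log (1 / δ) := by
      rw [Real.log_div hδ0.ne' hε.ne', one_div, one_div, Real.log_inv, Real.log_inv]
      ring
    rw [h10, h11]
    have e1 : r * (Real.log (1 / ε) - Real.log (1 / δ)) + (∫ t in ε..δ, g (z + t)).re + (A δ).re -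
        r * Real.log (1 / ε) = (A δ).re + (∫ t in ε..δ, g (z + t)).re + -(r * Real.log (1 / δ)) := by ring
    rw [e1]
    refine (abs_add_three _ _ _).trans ?_
    rw [abs_neg, abs_mul]
    have i1 := (Complex.abs_re_le_norm (A δ)).trans (hAδ δ le_rfl)
    have i2 := (Complex.abs_re_le_norm (∫ t in ε..δ, g (z + t))).trans h8
    linarith
  · push Not at hlt
    have i1 := (Complex.abs_re_le_norm (A ε)).trans (hAδ ε hlt.le)
    have i2 : |Real.log (1 / ε)| ≤ |Real.log (1 / δ)| := by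
      rw [abs_of_nonneg (Real.log_nonneg (by rw [le_div_iff₀ hε]; linarith)),
        abs_of_nonneg (Real.log_nonneg (by rw [le_div_iff₀ hδ0]; linarith))]
      apply Real.log_le_log (by positivity)
      exact one_div_le_one_div_of_le hδ0 hlt.le
    have i3 := abs_sub (A ε).re (r * Real.log (1 / ε))
    rw [abs_mul] at i3
    have i4 : |r| * |Real.log (1 / ε)| ≤ |r| * |Real.log (1 / δ)| := by gcongr
    have i5 := norm_nonneg (g z)
    linarith

end

end Pool.Agent.L0h50.FI
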